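import Mathlib

/-!
# An integer-distance realization of the 2 x 4 grid

The eight points `(240 i, y_j)` with `i = 0, 1` and `y = -391, -27, 27, 391` have integer distances: the differences
of the `y_j` are 54, 364, 418 and 782, and `54^2 + 240^2 = 246^2`, `364^2 + 240^2 = 436^2`, `418^2 + 240^2 = 482^2`,
`782^2 + 240^2 = 818^2`.
-/

set_option autoImplicit false

namespace Pool.Agent.Results.MP_cca62e_co.GridTwoFour

/-- Orientation of an ordered triple of points of the plane. -/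
noncomputable def orient (a b c : EuclideanSpace ℝ (Fin 2)) : SignType :=
  SignType.sign ((b 0 - a 0) * (c 1 - a 1) - (b 1 - a 1) * (c 0 - a 0))

/-- The points of the grid `GRID(m, n)`. -/
noncomputable def grid (m n : ℕ) (p : Fin m × Fin n) : EuclideanSpace ℝ (Fin 2) :=
  !₂[((p.1 : ℕ) : ℝ), ((p.2 : ℕ) : ℝ)]

/-- `GRID(m, n)` has an integer-distance realization. -/
def HasIntegerRealization (m n : ℕ) : Prop :=
  ∃ q : Fin m × Fin n → EuclideanSpace ℝ (Fin 2), Function.Injective q ∧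
    (∀ a b c, orient (q a) (q b) (q c) = orient (grid m n a) (grid m n b) (grid m n c)) ∧
    ∀ a b, ∃ z : ℤ, dist (q a) (q b) = z

/-- First coordinate. -/
def cx (p : Fin 2 × Fin 4) : ℤ := 240 * (p.1 : ℕ)

/-- Second coordinate. -/
def cy (p : Fin 2 × Fin 4) : ℤ := ![-391, -27, 27, 391] p.2

/-- Distances. -/
def cd (a b : Fin 2 × Fin 4) : ℤ := (Nat.sqrt ((cx a - cx b) ^ 2 + (cy a - cy b) ^ 2).toNat : ℕ)

/-- The realization. -/
noncomputable def q (p : Fin 2 × Fin 4) : EuclideanSpace ℝ (Fin 2) := !₂[(cx p : ℝ), (cy p : ℝ)]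

theorem sign_cast (z : ℤ) : SignType.sign (z : ℝ) = SignType.sign z := by
  rcases lt_trichotomy z 0 with h | h | h
  · rw [sign_neg h, sign_neg (by exact_mod_cast h)]
  · rw [h]; simp
  · rw [sign_pos h, sign_pos (by exact_mod_cast h)]

theorem signs : ∀ a b c : Fin 2 × Fin 4,
    SignType.sign ((cx b - cx a) * (cy c - cy a) - (cy b - cy a) * (cx c - cx a)) =
    SignType.sign ((((b.1 : ℕ) : ℤ) - ((a.1 : ℕ) : ℤ)) * (((c.2 : ℕ) : ℤ) - ((a.2 : ℕ) : ℤ)) -
      (((b.2 : ℕ) : ℤ) - ((a.2 : ℕ) : ℤ)) * (((c.1 : ℕ) : ℤ) - ((a.1 : ℕ) : ℤ))) := by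
  decide +kernel

theorem dists : ∀ a b : Fin 2 × Fin 4, 0 ≤ cd a b ∧ cd a b * cd a b = (cx a - cx b) ^ 2 + (cy a - cy b) ^ 2 := by
  decide +kernel

theorem inj : ∀ a b : Fin 2 × Fin 4, cx a = cx b → cy a = cy b → a = b := by
  decide +kernel

/-- The 2 x 4 grid has an integer-distance realization. -/
theorem result : HasIntegerRealization 2 4 := by
  refine ⟨q, ?_, ?_, ?_⟩
  · intro a b h
    have h0 : (q a) 0 = (q b) 0 := by rw [h]
    have h1 : (q a) 1 = (q b) 1 := by rw [h]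
    simp [q] at h0 h1
    exact inj a b h0 h1
  · intro a b c
    have h := signs a b c
    rw [← sign_cast, ← sign_cast] at h
    unfold orient
    simp only [q, grid]
    push_cast at h
    simpa using h
  · intro a b
    refine ⟨cd a b, ?_⟩
    obtain ⟨h0, h1⟩ := dists a b
    rw [EuclideanSpace.dist_eq, Fin.sum_univ_two]
    have h2 : dist ((q a) 0) ((q b) 0) ^ 2 + dist ((q a) 1) ((q b) 1) ^ 2 = ((cd a b : ℤ) : ℝ) ^ 2 := by
      rw [Real.dist_eq, Real.dist_eq, sq_abs, sq_abs]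
      have h3 : ((cx a : ℝ) - cx b) ^ 2 + ((cy a : ℝ) - cy b) ^ 2 = (cd a b : ℝ) ^ 2 := by
        have : (((cx a - cx b) ^ 2 + (cy a - cy b) ^ 2 : ℤ) : ℝ) = ((cd a b * cd a b : ℤ) : ℝ) := by
          rw [h1]
        push_cast at this
        rw [this]; ring
      simpa [q] using h3
    rw [h2, Real.sqrt_sq (by exact_mod_cast h0)]

end Pool.Agent.Results.MP_cca62e_co.GridTwoFour
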